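import Pool.Agent.Y922.IZ.DualG
import Pool.Agent.Y448.IZ.Inv
import Pool.Agent.Y124.NFPoly

/-!
# Points at which a Dirichlet `L`-function takes algebraic values

If Catalan's constant `G = L(2, χ)`, `χ` the odd character mod `4`, were algebraic, then `s = 2` would be a point at which
`L(s, χ)` and `s` are algebraic. We show that at almost all points `s` at which a function `L^(k)(s + a, χ)` is algebraic
the numbers `s`, `π^s`, `Γ(s)`, the derivatives of `ψ` and all other derivatives of shifts of Dirichlet `L`-functions of the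
same modulus satisfy no (approximate) polynomial relation of bounded degree and polynomially bounded height, relative to
arbitrary constants.
-/

set_option autoImplicit false

open NumberField

namespace Pool.Agent.Results.MP_631c0d_nt.AlgebraicValues

/-- The elements of the number field `F` with image in `L` which are quotients of two integers of `F` all of whose
conjugates have absolute value at most `T`. -/
def Points (F : Type) [Field F] [NumberField F] (ι : F →+* ℂ) (L : Set ℂ) (T : ℝ) : Set F :=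
  {x | ι x ∈ L ∧ ∃ a b : 𝓞 F, b ≠ 0 ∧ (∀ φ : F →+* ℂ, ‖φ a‖ ≤ T ∧ ‖φ b‖ ≤ T) ∧ x = a / b}

/-- The function `L^(k)(s + a_i, χ)` for `y = (χ, i, k)`. -/
noncomputable def LL {q r w : ℕ} [NeZero q] (a : Fin r → ℝ) (y : DirichletCharacter ℂ q × Fin r × Fin w) (s : ℂ) : ℂ :=
  iteratedDeriv y.2.2 (DirichletCharacter.LFunction y.1) (s + a y.2.1)

/-- The numbers `s`, `β_l^s`, `Γ(s)`, `ψ^(k)(s)`, `k < w`, and `L^(k)(s + a_i, χ)`, `χ` mod `q`, `k < w`, with the exception
of the function with index `y₀`. -/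
noncomputable def values {h q r w : ℕ} [NeZero q] (β : Fin h → ℝ) (a : Fin r → ℝ)
    (y₀ : DirichletCharacter ℂ q × Fin r × Fin w) (s : ℂ) :
    Option (Fin h ⊕ (Unit ⊕ (Fin w ⊕ {y : DirichletCharacter ℂ q × Fin r × Fin w // y ≠ y₀}))) → ℂ
  | none => s
  | some (Sum.inl l) => (β l : ℂ) ^ s
  | some (Sum.inr (Sum.inl _)) => Complex.Gamma s
  | some (Sum.inr (Sum.inr (Sum.inl k))) => iteratedDeriv k Complex.digamma s
  | some (Sum.inr (Sum.inr (Sum.inr x))) => LL a x.1 s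

/-- The `n`-tuples `t` of points of `F` in the image of `K` under the function `LL a y₀` such that for some `s_j ∈ K` with
`LL a y₀ (s_j) = t_j` there is a polynomial `P` of degree at most `d` in each variable, with coefficients of the form
`∑ ξ_i ι(c_i)`, where the `c_i` are integers of `F` all of whose conjugates have absolute value at most `T ^ A`, whose value
at the numbers `values β a y₀ (s_j)`, `j ≤ n`, is at most `T ^ (-B)` times the absolute value of some nonzero coefficient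
of `P`. -/
def Exceptional {h q r w : ℕ} [NeZero q] (β : Fin h → ℝ) (a : Fin r → ℝ)
    (y₀ : DirichletCharacter ℂ q × Fin r × Fin w) (n d : ℕ) {g : ℕ} (F : Type) [Field F] [NumberField F]
    (ι : F →+* ℂ) (ξ : Fin g → ℂ) (K : Set ℂ) (A B T : ℝ) : Set (Fin n → F) :=
  {t | (∀ j, t j ∈ Points F ι (LL a y₀ '' K) T) ∧ ∃ s : Fin n → ℂ, (∀ j, s j ∈ K ∧ LL a y₀ (s j) = ι (t j)) ∧
    ∃ P : MvPolynomial (Fin n × Option (Fin h ⊕ (Unit ⊕ (Fin w ⊕
      {y : DirichletCharacter ℂ q × Fin r × Fin w // y ≠ y₀})))) ℂ,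
    (∀ x, P.degreeOf x ≤ d) ∧
    (∀ e, ∃ c : Fin g → 𝓞 F, (∀ i (φ : F →+* ℂ), ‖φ (c i)‖ ≤ T ^ A) ∧ P.coeff e = ∑ i, ξ i * ι (c i)) ∧
    ∃ e₀, P.coeff e₀ ≠ 0 ∧
      ‖MvPolynomial.aeval (fun x : Fin n × Option (Fin h ⊕ (Unit ⊕ (Fin w ⊕
        {y : DirichletCharacter ℂ q × Fin r × Fin w // y ≠ y₀}))) =>
        values β a y₀ (s x.1) x.2) P‖ ≤ T ^ (-B) * ‖P.coeff e₀‖}

/-- the index in the full family -/
def emb {h q r w : ℕ} [NeZero q] (y₀ : DirichletCharacter ℂ q × Fin r × Fin w) :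
    Fin h ⊕ (Unit ⊕ (Fin w ⊕ {y : DirichletCharacter ℂ q × Fin r × Fin w // y ≠ y₀})) → Y922.ZF.Idx h q r w w
  | Sum.inl l => Sum.inl l
  | Sum.inr (Sum.inl x) => Sum.inr (Sum.inl x)
  | Sum.inr (Sum.inr (Sum.inl k)) => Sum.inr (Sum.inr (Sum.inl k))
  | Sum.inr (Sum.inr (Sum.inr x)) => Sum.inr (Sum.inr (Sum.inr x.1))

/-- Let `β_1, …, β_h` be positive real numbers such that `∏ β_l ^ v_l` is irrational for all nonzero `v ∈ ℤ^h` (for
instance `h = 1` and `β_1 = π`), let `a_1, …, a_r` be distinct real numbers, `q ≥ 1`, and let `f₀(s) = L^(k₀)(s + a_{i₀}, χ₀)`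
be one of the functions `L^(k)(s + a_i, χ)`, `χ` mod `q`, `i ≤ r`, `k < w`. Let `K` be a compact set of complex numbers
containing none of `0, -1, -2, …` and none of the `1 - a_i`, on which `f₀` is injective and `f₀'` has no zero. For all `m`,
`n`, `g`, `d`, `A` and `ε > 0` there are `B`, `C`, `T₀` such that for every number field `F` of degree at most `m`, every
embedding of `F` in `ℂ`, all complex numbers `ξ_1, …, ξ_g` and all `T ≥ T₀` the number of exceptional `n`-tuples is at most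
`C T^ε M^(n - 1)`, where `M` is the number of points of `F` in `f₀(K)`. -/
theorem result {h q r w : ℕ} [NeZero q] (β : Fin h → ℝ) (hβ0 : ∀ l, 0 < β l)
    (hβ : ∀ v : Fin h → ℤ, (∃ x : ℚ, ∏ l, β l ^ v l = x) → v = 0) (a : Fin r → ℝ) (ha : Function.Injective a)
    (y₀ : DirichletCharacter ℂ q × Fin r × Fin w) (m n g d : ℕ) (K : Set ℂ) (hK : IsCompact K)
    (hK1 : ∀ s ∈ K, (∀ l : ℕ, s ≠ -l) ∧ ∀ i, s + a i ≠ 1) (hinj : Set.InjOn (LL a y₀) K)
    (hder : ∀ s ∈ K, deriv (LL a y₀) s ≠ 0) (A ε : ℝ) (hε : 0 < ε) :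
    ∃ B C T₀ : ℝ, ∀ (F : Type) [Field F] [NumberField F], Module.finrank ℚ F ≤ m → ∀ (ι : F →+* ℂ) (ξ : Fin g → ℂ)
      (T : ℝ), T₀ ≤ T → (Exceptional β a y₀ n d F ι ξ K A B T).Finite ∧
        ((Exceptional β a y₀ n d F ι ξ K A B T).ncard : ℝ) ≤
          C * T ^ ε * ((Points F ι (LL a y₀ '' K) T).ncard : ℝ) ^ (n - 1) := by
  classical
  have hKR : K ⊆ Y922.IZ.RegG a := fun s hs => hK1 s hs
  have hLL : LL a y₀ = Y922.ZF.FF h q r w w β a (Sum.inr (Sum.inr (Sum.inr y₀))) := rfl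
  obtain ⟨G, hG⟩ := Y448.IZ.t_INV (LL a y₀) K hK
    (fun s hs => by rw [hLL]; exact Y922.IZ.FF_analytic h q r w w β hβ0 a _ s (hKR hs)) hinj hder
  have hone := fun g' => Y922.IZ.oneG g' h q r w w β hβ0 hβ a ha (Sum.inr (Sum.inr (Sum.inr y₀))) (emb y₀)
    (by
      intro x y hxy
      rcases x with x | (x | (x | x)) <;> rcases y with y | (y | (y | y)) <;> simp_all [emb, Subtype.ext_iff])
    (by
      intro x hx
      rcases x with x | (x | (x | x))
      · simp [emb] at hx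
      · simp [emb] at hx
      · simp [emb] at hx
      · exact x.2 (by simpa [emb] using hx)) K hK hKR G hG
  obtain ⟨B, C, T₀, hC, hT₀, H⟩ := Y124.excNF (h := Fin g) m n d
    (fun c (y : Option (Fin h ⊕ (Unit ⊕ (Fin w ⊕ {y : DirichletCharacter ℂ q × Fin r × Fin w // y ≠ y₀})))) =>
      y.elim (G c) fun x => Y922.ZF.FF h q r w w β a (emb y₀ x) (G c)) (LL a y₀ '' K) hone A ε hε
  refine ⟨B, C, T₀, fun F _ _ hF ι ξ T hT => ?_⟩
  have hT0 : 0 ≤ T := by linarith
  have hP : Points F ι (LL a y₀ '' K) T = {x : F | Y120.HtLe F T x ∧ ι x ∈ LL a y₀ '' K} := by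
    ext x
    constructor
    · rintro ⟨h1, a, b, hb, hab, hx⟩
      exact ⟨⟨a, b, hb, Y120.house_le F hT0 fun φ => (hab φ).1, Y120.house_le F hT0 fun φ => (hab φ).2, hx⟩, h1⟩
    · rintro ⟨⟨a, b, hb, ha, hb', hx⟩, h1⟩
      exact ⟨h1, a, b, hb, fun φ => ⟨(Y120.house_ge F _ φ).trans ha, (Y120.house_ge F _ φ).trans hb'⟩, hx⟩
  have hsub : Exceptional β a y₀ n d F ι ξ K A B T ⊆ Y124.ExcNF n d F ι ξ
      (fun c (y : Option (Fin h ⊕ (Unit ⊕ (Fin w ⊕ {y : DirichletCharacter ℂ q × Fin r × Fin w // y ≠ y₀})))) =>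
        y.elim (G c) fun x => Y922.ZF.FF h q r w w β a (emb y₀ x) (G c)) (LL a y₀ '' K) A B T := by
    rintro t ⟨ht, s, hs, P, hPd, hPc, s₀, hs₀, hs'⟩
    refine ⟨fun j => ?_, P, hPd, hPc, s₀, hs₀, ?_⟩
    · have h1 := ht j
      rw [hP] at h1
      exact h1
    · have hval : (fun x : Fin n × Option (Fin h ⊕ (Unit ⊕ (Fin w ⊕
          {y : DirichletCharacter ℂ q × Fin r × Fin w // y ≠ y₀}))) =>
          x.2.elim (G (ι (t x.1))) fun y => Y922.ZF.FF h q r w w β a (emb y₀ y) (G (ι (t x.1)))) =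
          fun x => values β a y₀ (s x.1) x.2 := by
        funext x
        have h3 : G (ι (t x.1)) = s x.1 := by
          rw [← (hs x.1).2]
          exact (hG _ (hs x.1).1).2.self_of_nhds
        obtain ⟨j, y⟩ := x
        simp only at h3 ⊢
        rw [h3]
        rcases y with _ | (l | (x | (k | x))) <;> rfl
      rw [hval]
      exact hs'
  obtain ⟨h1, h2⟩ := H F hF ι ξ T hT
  refine ⟨h1.subset hsub, ?_⟩
  rw [hP]
  exact le_trans (by exact_mod_cast Set.ncard_le_ncard hsub h1) h2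

end Pool.Agent.Results.MP_631c0d_nt.AlgebraicValues
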